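import Pool.Agent.NPX.Stmts
import Pool.Agent.LSG.Stmts

/-!
# Squad NPX, row MAN: the counting
-/

set_option autoImplicit false

open MeasureTheory Set Topology Pointwise

namespace Pool.Agent.NPX.H36

open Pool.Agent.LSG Pool.Agent.NPX

theorem man (hPWR : PwrStmt) (hEXN : ExnStmt) (hFOL : FolStmt) (hAVG : AvgStmt) (hTRI : TriStmt)
    (hGNR : GnrStmt) (hSPB : SpbStmt) (hRPV : Pool.Agent.LSG.RpvStmt) : ManStmt := by
  classical
  intro K _ _ _ _ _ _ _ _ G hG p q hLE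
  by_contra hpq'
  have hpq : p < q := not_le.mp hpq'
  obtain ⟨T, hT, hT'⟩ := hLE
  obtain ⟨c, hc⟩ := hRPV _ _ (T : C(G × Fin p, ℝ) →ₗ[ℝ] C(G × Fin q, ℝ)) hT
  obtain ⟨d, hd⟩ := hRPV _ _ (T.symm : C(G × Fin q, ℝ) →ₗ[ℝ] C(G × Fin p, ℝ)) hT'
  obtain ⟨S, hSc, hSG, hSI, hSp, hSpd⟩ := hSPB K G hG p q _ c _ d hc hd
  obtain ⟨hI0, hI1, hIadd, hImul, hUI, hU0, hU1, hUm, hUd, hUc, V, hVne, hVU, hVI, hVc⟩ := hPWR K
  have hq0 : 0 < q := lt_of_le_of_lt (Nat.zero_le _) hpq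
  have hpq1 : (1 : ℝ) ≤ (p : ℝ) + q := by
    have h1 : (1 : ℝ) ≤ q := by exact_mod_cast hq0
    have h2 : (0 : ℝ) ≤ p := Nat.cast_nonneg _
    linarith
  obtain ⟨ε, hεd⟩ : ∃ ε : ℝ, ε = 1 / (2 * ((p : ℝ) + q)) := ⟨_, rfl⟩
  have hε : 0 < ε := by rw [hεd]; positivity
  have hεm : ε * ((p : ℝ) + q) = 1 / 2 := by
    rw [hεd]
    have h3 : (p : ℝ) + q ≠ 0 := by linarith
    field_simp
  have hε1 : ε < 1 := by nlinarith
  obtain ⟨δ, hδ, hA⟩ := hAVG K G hG V hVne hVU ε hε hε1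
  obtain ⟨H, n, M, hHS, hM, hMδ, hsup⟩ := hEXN K G S hG p q _ c hc hSc hSp δ hδ
  obtain ⟨F, F', hFne, hFS, hF'S, hcard, hfol⟩ := hFOL K S V hSI hVU H n ε hHS hε
  obtain ⟨x, hxG, ⟨hgc, hgd⟩, hcount⟩ := hA M F hM hMδ hFne (fun x => Gn c S x ∧ Gn d S x)
    ((hGNR K G p q c S hSc hSp).and (hGNR K G q p d S hSc hSpd))
  have hLI := hTRI K G S p q _ c _ d x hc hd (fun g => T.apply_symm_apply g) hSG hxG hSI hSpd.1
    hgc hgd
  have hneg : ∀ k : ℤ, ¬ Inf K k → ¬ Inf K (-k) := by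
    intro k hk
    have h4 := hImul k (-1) hk
    rwa [mul_neg_one] at h4
  -- an integer with power in S
  have hpow : ∀ (u u' : ℤ) (s s' : K), s ∈ S → s' ∈ S → x ^ u * s = x ^ u' * s' →
      ¬ Inf K (u - u') := by
    intro u u' s s' hs hs' he hInf
    refine hgc.pow (u - u') hInf ?_
    have h5 : x ^ (u - u') = s' * s⁻¹ := by
      rw [zpow_sub]
      calc x ^ u * (x ^ u')⁻¹ = (x ^ u * s) * ((x ^ u')⁻¹ * s⁻¹) := by
            rw [mul_mul_mul_comm, mul_comm s, mul_assoc, mul_comm s⁻¹, mul_inv_cancel, mul_one]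
        _ = (x ^ u' * s') * ((x ^ u')⁻¹ * s⁻¹) := by rw [he]
        _ = s' * s⁻¹ := by rw [mul_mul_mul_comm, mul_inv_cancel, one_mul]
    rw [h5]
    exact S.mul_mem hs' (S.inv_mem hs)
  set B : Finset (ℤ × K) := (V ×ˢ F).filter fun w => x ^ w.1 * w.2 ∈ M with hB
  have hBset : {w : ℤ × K | w.1 ∈ V ∧ w.2 ∈ F ∧ x ^ w.1 * w.2 ∈ M} = (B : Set (ℤ × K)) := by
    ext w
    simp only [hB, Set.mem_setOf_eq, Finset.coe_filter, Finset.mem_product]
    tauto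
  rw [hBset, Set.ncard_coe_finset] at hcount
  have hBm0 : ∀ w ∈ B, w.1 ∈ V ∧ w.2 ∈ F ∧ x ^ w.1 * w.2 ∈ M := by
    intro w h6
    rw [hB, Finset.mem_filter, Finset.mem_product] at h6
    exact ⟨h6.1.1, h6.1.2, h6.2⟩
  have hBm : ∀ w : B, w.1.1 ∈ V ∧ w.1.2 ∈ F ∧ x ^ w.1.1 * w.1.2 ∈ M := fun w => hBm0 w.1 w.2
  have hbG : ∀ w : B, x ^ w.1.1 * w.1.2 ∈ G := fun w =>
    G.mul_mem (G.zpow_mem hxG _) (hSG (hFS _ (hBm w).2.1))
  have hbT : ∀ w : B, x ^ w.1.1 * w.1.2 ∈ Tp S x := fun w =>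
    ⟨w.1.1, hVU _ (hBm w).1, w.1.2, hFS _ (hBm w).2.1, rfl⟩
  let e : B × Fin q → {b : G × Fin q // (b.1 : K) ∈ Tp S x} := fun wi =>
    ⟨(⟨x ^ wi.1.1.1 * wi.1.1.2, hbG wi.1⟩, wi.2), hbT wi.1⟩
  have heinj : Function.Injective e := by
    rintro ⟨w, i⟩ ⟨w', i'⟩ he
    have h7 := congrArg (fun b => b.1) he
    simp only [e, Prod.mk.injEq, Subtype.mk.injEq] at h7
    obtain ⟨h8, h9⟩ := h7
    have h10 := hpow _ _ _ _ (hFS _ (hBm w).2.1) (hFS _ (hBm w').2.1) h8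
    have h11 : w.1.1 = w'.1.1 := by
      by_contra h12
      exact h10 (hVI _ (hBm w).1 _ (hBm w').1 h12)
    rw [h11] at h8
    have h12 : w.1.2 = w'.1.2 := mul_left_cancel h8
    have h13 : w = w' := Subtype.ext (Prod.ext h11 h12)
    rw [h13, h9]
  have hLI2 := hLI.comp e heinj
  -- the target
  have hgG : ∀ w : (V ×ˢ F' : Finset (ℤ × K)), x ^ w.1.1 * w.1.2 ∈ G := fun w =>
    G.mul_mem (G.zpow_mem hxG _) (hSG (hF'S _ (Finset.mem_product.mp w.2).2))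
  let g : (V ×ˢ F' : Finset (ℤ × K)) × Fin p → G × Fin p := fun wi =>
    (⟨x ^ wi.1.1.1 * wi.1.1.2, hgG wi.1⟩, wi.2)
  set A : Finset (G × Fin p) := Finset.univ.image g with hAdef
  have hAcard : A.card ≤ V.card * F'.card * p := by
    refine Finset.card_image_le.trans (le_of_eq ?_)
    rw [Finset.card_univ, Fintype.card_prod, Fintype.card_coe, Finset.card_product,
      Fintype.card_fin]
  have hmemA : ∀ wi : B × Fin q, ((c (e wi).1).filter fun a => (a.1 : K) ∈ Tp S x) ∈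
      Finsupp.supported ℝ ℝ (A : Set (G × Fin p)) := by
    rintro ⟨w, i⟩
    rw [Finsupp.mem_supported]
    intro a ha
    have ha' := Finsupp.mem_support_iff.mp (Finset.mem_coe.mp ha)
    have haT : (a.1 : K) ∈ Tp S x := by
      by_contra hn
      exact ha' (Finsupp.filter_apply_neg (fun a : G × Fin p => (a.1 : K) ∈ Tp S x) _ hn)
    rw [Finsupp.filter_apply_pos (fun a : G × Fin p => (a.1 : K) ∈ Tp S x) _ haT] at ha'
    obtain ⟨hwV, hwF, hwM⟩ := hBm w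
    obtain ⟨j, hj, hh⟩ := hsup ⟨x ^ w.1.1 * w.1.2, hbG w⟩ i a hwM ha'
    obtain ⟨u', hu', s', hs', hau⟩ := haT
    set u : ℤ := w.1.1
    set s : K := w.1.2
    set h : K := (a.1 : K) * ((x ^ u * s) ^ j)⁻¹ with hhdef
    have hh' : h ∈ H := hh
    have ha1 : (a.1 : K) = x ^ (u * j) * (s ^ j * h) := by
      rw [hhdef, mul_zpow, ← zpow_mul, mul_inv]
      have h14 : (x ^ (u * j)) * (s ^ j * ((a.1 : K) * ((x ^ (u * j))⁻¹ * (s ^ j)⁻¹))) =
          (a.1 : K) * ((x ^ (u * j)) * (x ^ (u * j))⁻¹) * (s ^ j * (s ^ j)⁻¹) := by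
        simp only [mul_comm, mul_left_comm, mul_assoc]
      rw [h14, mul_inv_cancel, mul_inv_cancel, mul_one, mul_one]
    have hsS : s ∈ S := hFS _ hwF
    have h15 : ¬ Inf K (u * j - u') := hpow _ _ _ _ (S.mul_mem (S.zpow_mem hsS j) (hHS _ hh'))
      hs' (ha1.symm.trans hau)
    have h16 : ¬ Inf K (u' - u * j) := by
      have h17 := hneg _ h15
      rwa [neg_sub] at h17
    have h18 : Un K (u * j) := hUc u' (u * j) hu' h16
    obtain ⟨v, hv, hv2⟩ := hVc (u * j) h18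
    have h19 := hfol s hwF h hh' u hwV v hv j hj hv2 x
    have h20 : (a.1 : K) = x ^ v * (s ^ j * h * x ^ (u * j - v)) := by
      rw [ha1, zpow_sub]
      have h21 : x ^ v * (s ^ j * h * (x ^ (u * j) * (x ^ v)⁻¹)) =
          x ^ (u * j) * (s ^ j * h) * (x ^ v * (x ^ v)⁻¹) := by
        simp only [mul_comm, mul_left_comm, mul_assoc]
      rw [h21, mul_inv_cancel, mul_one]
    rw [hAdef, Finset.coe_image, Finset.coe_univ, Set.image_univ]
    refine ⟨(⟨(v, s ^ j * h * x ^ (u * j - v)), Finset.mem_product.mpr ⟨hv, h19⟩⟩, a.2), ?_⟩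
    refine Prod.ext (Subtype.ext ?_) rfl
    exact h20.symm
  let N := Finsupp.supported ℝ ℝ (A : Set (G × Fin p))
  let v' : B × Fin q → N := fun wi => ⟨_, hmemA wi⟩
  have hv' : LinearIndependent ℝ v' := LinearIndependent.of_comp N.subtype hLI2
  have eq1 : N ≃ₗ[ℝ] ((A : Set (G × Fin p)) →₀ ℝ) := Finsupp.supportedEquivFinsupp _
  haveI : Module.Finite ℝ N := Module.Finite.equiv eq1.symm
  have h22 := hv'.fintype_card_le_finrank
  have h23 : Module.finrank ℝ N = A.card := by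
    rw [eq1.finrank_eq, Module.finrank_finsupp_self]
    simp
  rw [h23, Fintype.card_prod, Fintype.card_coe, Fintype.card_fin] at h22
  have h24 : (B.card : ℝ) * q ≤ V.card * F'.card * p := by
    exact_mod_cast h22.trans hAcard
  have hVp : (0 : ℝ) < V.card := by exact_mod_cast Finset.card_pos.mpr hVne
  have hFp : (0 : ℝ) < F.card := by exact_mod_cast Finset.card_pos.mpr hFne
  have h25 : (1 - ε) * (V.card * F.card) * q ≤ V.card * ((1 + ε) * F.card) * p := by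
    calc (1 - ε) * (V.card * F.card) * q ≤ (B.card : ℝ) * q :=
          mul_le_mul_of_nonneg_right hcount (Nat.cast_nonneg _)
      _ ≤ V.card * F'.card * p := h24
      _ ≤ V.card * ((1 + ε) * F.card) * p :=
          mul_le_mul_of_nonneg_right (mul_le_mul_of_nonneg_left hcard hVp.le) (Nat.cast_nonneg _)
  have h26 : (p : ℝ) + 1 ≤ q := by exact_mod_cast hpq
  have h27 : (1 - ε) * q ≤ (1 + ε) * p := by
    have h28 : 0 < (V.card : ℝ) * F.card := mul_pos hVp hFp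
    have h29 : (V.card : ℝ) * F.card * ((1 - ε) * q) ≤ V.card * F.card * ((1 + ε) * p) := by
      linarith
    exact le_of_mul_le_mul_left h29 h28
  linarith

end Pool.Agent.NPX.H36
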